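import Pool.Agent.H32.RK.TargetsA
import Pool.Agent.H32.RK.TargetsB
import Pool.Agent.H32.RK.TargetsE

/-!
Row LOC of the board hpk_modules (`MP_63b6b1_nt` over number fields): the lower bound for the
number of local zeros.
-/

set_option autoImplicit false

open Finset NumberField Pool.Agent.H32.RQ Pool.Agent.H32.RK

namespace Pool.Agent.H40.RK.Loc

theorem qf_map {R S : Type} [CommRing R] [CommRing S] {s : ℕ} (f : R →+* S) (c : Mon s → R)
    (x : Fin s → R) : qf (fun p => f (c p)) (fun j => f (x j)) = f (qf c x) := by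
  unfold qf
  rw [map_sum]
  exact Finset.sum_congr rfl fun p _ => by rw [map_mul, map_mul]

theorem qf_scale {s : ℕ} (f : Mon s → ℂ) (B : ℂ) (x : Fin s → ℂ) :
    qf f (fun j => x j / B) = qf f x / B ^ 2 := by
  unfold qf
  rw [Finset.sum_div]
  exact Finset.sum_congr rfl fun p _ => by ring

section

variable {K : Type} [Field K] [NumberField K]

omit [NumberField K] in
theorem place_nat (w : InfinitePlace K) (n : ℕ) : w (n : K) = n := by
  rw [← InfinitePlace.norm_embedding_eq, map_natCast, Complex.norm_natCast]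

theorem norm_W (hNRM : T_NRM K) (W : ℕ) :
    Ideal.absNorm (Ideal.span {(W : 𝓞 K)}) = W ^ dg K := by
  have h1 := hNRM.2.1 (W : 𝓞 K)
  have h2 : nm (((W : 𝓞 K) : K)) = (W : ℝ) ^ dg K := by
    have h3 : (fun w : InfinitePlace K => w (((W : 𝓞 K) : K))) = fun _ => (W : ℝ) := by
      funext w
      have h4 : (((W : 𝓞 K) : K)) = (W : K) := map_natCast (algebraMap (𝓞 K) K) W
      rw [h4]
      exact place_nat w W
    unfold nm
    rw [h3]
    exact hNRM.2.2.2.1 _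
  rw [h2] at h1
  exact_mod_cast h1.symm

omit [NumberField K] in
theorem repr_mul {ι : Type} [Fintype ι] (ω : Module.Basis ι ℤ (𝓞 K)) (W : ℕ) (y : 𝓞 K) (m : ι) :
    ω.repr ((W : 𝓞 K) * y) m = W * ω.repr y m := by
  have h : (W : 𝓞 K) * y = (W : ℤ) • y := by
    rw [zsmul_eq_mul]
    push_cast
    rfl
  rw [h, map_smul, Finsupp.smul_apply, smul_eq_mul]

/-- the bad vectors are few -/
theorem bad_le (s g : ℕ) (b c' C₁ C₂ : ℝ) (hs : 6 ≤ s) (hg : 1 ≤ g) (hb : 1 ≤ b) (hc : 0 < c')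
    (hC₁ : 1 ≤ C₁) (hC₂ : 1 ≤ C₂) :
    (C₁ * b ^ (3 * g) * (b ^ 4) ^ (g * (s - 1)) +
      C₂ * (b ^ 4) ^ (2 * g) * ((c' * b ^ 3) ^ g) ^ (s - 1)) * b ≤
      (C₁ + C₂ * c' ^ (g * (s - 1))) * b ^ (4 * s * g) := by
  obtain ⟨n, rfl⟩ : ∃ n, s = n + 6 := ⟨s - 6, by omega⟩
  obtain ⟨k, rfl⟩ : ∃ k, g = k + 1 := ⟨g - 1, by omega⟩
  have e : n + 6 - 1 = n + 5 := rfl
  rw [e]
  have h1 : C₁ * b ^ (3 * (k + 1)) * (b ^ 4) ^ ((k + 1) * (n + 5)) * b ≤
      C₁ * b ^ (4 * (n + 6) * (k + 1)) := by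
    have h2 : C₁ * b ^ (3 * (k + 1)) * (b ^ 4) ^ ((k + 1) * (n + 5)) * b =
        C₁ * b ^ (3 * (k + 1) + 4 * ((k + 1) * (n + 5)) + 1) := by
      rw [← pow_mul, pow_succ, pow_add]
      ring
    rw [h2]
    refine mul_le_mul_of_nonneg_left (pow_le_pow_right₀ hb ?_) (by linarith)
    nlinarith
  have h3 : C₂ * (b ^ 4) ^ (2 * (k + 1)) * ((c' * b ^ 3) ^ (k + 1)) ^ (n + 5) * b ≤
      C₂ * c' ^ ((k + 1) * (n + 5)) * b ^ (4 * (n + 6) * (k + 1)) := by
    have h4 : C₂ * (b ^ 4) ^ (2 * (k + 1)) * ((c' * b ^ 3) ^ (k + 1)) ^ (n + 5) * b =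
        C₂ * c' ^ ((k + 1) * (n + 5)) *
          b ^ (4 * (2 * (k + 1)) + 3 * ((k + 1) * (n + 5)) + 1) := by
      rw [← pow_mul, ← pow_mul, mul_pow, ← pow_mul, pow_succ, pow_add]
      ring
    rw [h4]
    have h5 : 0 ≤ C₂ * c' ^ ((k + 1) * (n + 5)) :=
      mul_nonneg (by linarith) (pow_nonneg hc.le _)
    refine mul_le_mul_of_nonneg_left (pow_le_pow_right₀ hb ?_) h5
    nlinarith
  calc (C₁ * b ^ (3 * (k + 1)) * (b ^ 4) ^ ((k + 1) * (n + 5)) +
        C₂ * (b ^ 4) ^ (2 * (k + 1)) * ((c' * b ^ 3) ^ (k + 1)) ^ (n + 5)) * b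
      = C₁ * b ^ (3 * (k + 1)) * (b ^ 4) ^ ((k + 1) * (n + 5)) * b +
        C₂ * (b ^ 4) ^ (2 * (k + 1)) * ((c' * b ^ 3) ^ (k + 1)) ^ (n + 5) * b := by ring
    _ ≤ _ := add_le_add h1 h3
    _ = _ := by ring

end

end Pool.Agent.H40.RK.Loc

namespace Pool.Agent.H40.RK

open Loc

open Classical in
/-- LOC -/
theorem pf_LOC (K : Type) [Field K] [NumberField K] (hWFN : T_WFN K) (hCUW : T_CUW K)
    (hSIE : T_SIE K) (hBDS : T_BDS K) (hBDI : T_BDI K) (hCMP : T_CMP K) (hNRM : T_NRM K)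
    (hCRD : T_CRD) : T_LOC K := by
  intro ι _ _ ω s d t w₀ hs hd
  obtain ⟨C₀, hC₀1, hCa, hCb⟩ := (hCMP ι ω).2
  obtain ⟨r, c₁, hr, hc₁, hC⟩ := hCUW s d C₀ hd hC₀1
  obtain ⟨η₁, hη₁, hWf⟩ := hWFN s t w₀
  obtain ⟨w₁, cS, hcS, hS⟩ := hSIE s hs
  obtain ⟨C₁, hC₁, hBS⟩ := hBDS s
  obtain ⟨C₂, hC₂, hBI⟩ := hBDI s
  have hs0 : (0 : ℝ) < s := by
    have : 0 < s := by omega
    exact_mod_cast this
  have hg1 : 1 ≤ dg K := Module.finrank_pos
  obtain ⟨g, hg⟩ : ∃ g : ℕ, g = dg K := ⟨_, rfl⟩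
  rw [← hg] at hg1
  obtain ⟨σ, hσ⟩ : ∃ σ : ℝ, σ = C₀ ^ 2 * ((s : ℝ) * (s + 1)) := ⟨_, rfl⟩
  have hC0p : 0 < C₀ := by linarith
  have hσ0 : 0 < σ := by
    rw [hσ]
    positivity
  obtain ⟨η, hη⟩ : ∃ η : ℝ, η = η₁ * cS * c₁ ^ (g * (s - 2)) / (2 * σ ^ (2 * g)) := ⟨_, rfl⟩
  have hη0 : 0 < η := by
    rw [hη]
    positivity
  refine ⟨r, η, c₁ * σ, w₁, hr, hη0, by positivity, ?_⟩
  rw [← hg]
  intro W w 𝔴₀ 𝔴₁ c' δ hW1 hc' hWI hcop hW0 hW0t hw hpw hδ hδ0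
  have hWr : (0 : ℝ) < W := by exact_mod_cast hW1
  have hIb : Ideal.span {(W : 𝓞 K)} ≠ ⊥ := by
    rw [Ne, Ideal.span_singleton_eq_bot]
    exact_mod_cast (by omega : W ≠ 0)
  have h𝔴₀ : 𝔴₀ ≠ ⊥ := by
    intro h
    rw [h, Ideal.bot_mul] at hWI
    exact hIb hWI
  have h𝔴₁ : 𝔴₁ ≠ ⊥ := by
    intro h
    rw [h, Ideal.mul_bot] at hWI
    exact hIb hWI
  obtain ⟨ρ, hρ⟩ : ∃ ρ : ℝ, ρ = δ / σ := ⟨_, rfl⟩
  have hρ0 : 0 < ρ := by
    rw [hρ]
    positivity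
  have hρ1 : ρ ≤ c₁ := by
    rw [hρ, div_le_iff₀ hσ0]
    exact hδ0
  have hδρ : δ = ρ * σ := by
    rw [hρ]
    field_simp
  obtain ⟨L₀, hL⟩ := hS W w (1 / ρ) hw hW1 hpw (by positivity)
  obtain ⟨Cb, hCbd⟩ : ∃ Cb : ℝ, Cb = C₁ + C₂ * c' ^ (g * (s - 1)) := ⟨_, rfl⟩
  obtain ⟨b₁, hb₁⟩ := exists_nat_ge (L₀ / ρ)
  obtain ⟨b₂, hb₂⟩ := exists_nat_ge (Cb * (W : ℝ) ^ (2 * g) / (η * δ ^ (2 * g)))
  refine ⟨max 1 (max b₁ b₂), ?_⟩
  intro b A hb hA c hc hRB hPR hW1c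
  have hb1 : 1 ≤ b := le_trans (le_max_left _ _) hb
  have hbb1 : b₁ ≤ b := le_trans (le_trans (le_max_left _ _) (le_max_right _ _)) hb
  have hbb2 : b₂ ≤ b := le_trans (le_trans (le_max_right _ _) (le_max_right _ _)) hb
  have hb0 : (0 : ℝ) < b := by exact_mod_cast hb1
  have hA0 : (0 : ℝ) < A := by exact_mod_cast hA
  obtain ⟨B, hB⟩ : ∃ B : ℝ, B = (b : ℝ) ^ 4 := ⟨_, rfl⟩
  have hB0 : 0 < B := by
    rw [hB]
    positivity
  have hB1 : 1 ≤ B := by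
    rw [hB]
    exact one_le_pow₀ (by exact_mod_cast hb1)
  have hbB : (b : ℝ) ≤ B := by
    rw [hB]
    have h1 : b ≤ b ^ 4 := Nat.le_self_pow (by norm_num) b
    exact_mod_cast h1
  obtain ⟨L, hLd⟩ : ∃ L : ℝ, L = ρ * B := ⟨_, rfl⟩
  have hLL : L₀ ≤ L := by
    rw [hLd]
    have h1 : L₀ ≤ (b₁ : ℝ) * ρ := by
      rwa [div_le_iff₀ (by positivity)] at hb₁
    have h2 : (b₁ : ℝ) ≤ b := by exact_mod_cast hbb1
    nlinarith [mul_le_mul_of_nonneg_right (le_trans h2 hbB) hρ0.le]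
  -- the polydiscs
  have hcb : ∀ i p (v : InfinitePlace K), v (ec ω c i p : K) ≤ C₀ * A := by
    intro i p v
    refine hCb (c i p) A ?_ v
    intro l
    have h1 := Fintype.mem_piFinset.mp ((Fintype.mem_piFinset.mp
      ((Fintype.mem_piFinset.mp hc) i)) p) l
    rw [Finset.mem_Icc] at h1
    have h2 : |c i p l| ≤ (A : ℤ) := abs_le.mpr h1
    exact_mod_cast h2
  have hY := fun v : InfinitePlace K => hC v A (ec ω c) hA (fun i p => hcb i p v) (hRB v) ρ hρ0 hρ1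
  choose Y hY1 hY2 hY3 using hY
  -- the residues
  obtain ⟨I, hI⟩ : ∃ I : Ideal (𝓞 K), I = Ideal.span {(W : 𝓞 K)} := ⟨_, rfl⟩
  have hfin : Finite (𝓞 K ⧸ I) := by
    rw [hI]
    exact Ideal.finiteQuotientOfFreeOfNeBot _ hIb
  have hfin2 : Finite (Fin s → 𝓞 K ⧸ I) := inferInstance
  obtain ⟨Z, hZ, hZc⟩ : ∃ Z : Finset (Fin s → 𝓞 K ⧸ I), (∀ x, x ∈ Z ↔
      Prm x ∧ ∀ i, qf (cq I (ec ω c) i) x = 0) ∧ η₁ * (W : ℝ) ^ (g * (s - 2)) ≤ (Z.card : ℝ) := by
    have hZf : {x : Fin s → 𝓞 K ⧸ I | Prm x ∧ ∀ i, qf (cq I (ec ω c) i) x = 0}.Finite :=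
      Set.toFinite _
    refine ⟨hZf.toFinset, fun x => Set.Finite.mem_toFinset _, ?_⟩
    have h1 := hWf 𝔴₀ 𝔴₁ (ec ω c) h𝔴₀ h𝔴₁ hcop hW0
      (fun 𝔭 h1 h2 h3 => ⟨hW0t 𝔭 h1 h2 h3, hPR 𝔭 h1 h2 h3⟩) hW1c
    rw [← hWI, ← hI] at h1
    rw [hI] at h1
    rw [norm_W hNRM W, ← hg, ← hI] at h1
    have h2 : (H32.RK.am (cq I (ec ω c)) : ℝ) = (hZf.toFinset.card : ℝ) := by
      unfold H32.RK.am
      have h3 := Set.ncard_eq_toFinset_card _ hZf
      rw [← h3]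
      rfl
    rw [h2] at h1
    refine le_trans (le_of_eq ?_) h1
    push_cast
    rw [← pow_mul]
  -- the sets of vectors
  have hX : ∀ (y : InfinitePlace K → Fin s → ℂ) (a : Fin s → 𝓞 K ⧸ I),
      ∃ X : Finset (Fin s → 𝓞 K), y ∈ Fintype.piFinset Y → a ∈ Z →
      cS * (L / W) ^ (g * s) ≤ (X.card : ℝ) ∧ ∀ x ∈ X, Prm x ∧
        (∀ j, Ideal.Quotient.mk I (x j) = a j) ∧
        ∀ j (v : InfinitePlace K), ‖v.embedding (x j : K) - B * y v j‖ ≤ L := by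
    intro y a
    by_cases hy : y ∈ Fintype.piFinset Y
    · by_cases ha : a ∈ Z
      · have hrep : ∃ a' : Fin s → 𝓞 K, ∀ j, Ideal.Quotient.mk I (a' j) = a j :=
          ⟨fun j => (Ideal.Quotient.mk_surjective (a j)).choose, fun j =>
            (Ideal.Quotient.mk_surjective (a j)).choose_spec⟩
        obtain ⟨a', ha'⟩ := hrep
        rw [Fintype.mem_piFinset] at hy
        have h1 := hL L hLL (fun j v => (B : ℂ) * y v j) (fun j v hv => by
          have h2 := (hY2 v (y v) (hy v)).1 hv j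
          simp [h2]) (fun j v => by
          have h2 := ((hY2 v (y v) (hy v)).2 (y v) (fun j => by
            rw [sub_self, norm_zero]
            exact hρ0.le)).1 j
          rw [norm_mul, Complex.norm_real, Real.norm_of_nonneg hB0.le, hLd]
          have h3 : 1 / ρ * (ρ * B) = B := by
            field_simp
          rw [h3]
          nlinarith) a' (by
          have h2 : (fun j => Ideal.Quotient.mk I (a' j)) = a := funext ha'
          have h3 : Prm fun j => Ideal.Quotient.mk I (a' j) := by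
            rw [h2]
            exact ((hZ a).1 ha).1
          subst hI
          exact h3)
        obtain ⟨X, hX1, hX2⟩ := h1
        rw [← hg] at hX1
        refine ⟨X, fun _ _ => ⟨hX1, fun x hx => ?_⟩⟩
        obtain ⟨h3, h4, h5⟩ := hX2 x hx
        refine ⟨h3, fun j => ?_, h5⟩
        obtain ⟨u, hu⟩ := h4 j
        rw [hu, ← ha' j, map_add, map_mul]
        have h6 : Ideal.Quotient.mk I (W : 𝓞 K) = 0 := by
          rw [Ideal.Quotient.eq_zero_iff_mem, hI]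
          exact Ideal.mem_span_singleton_self _
        rw [h6, zero_mul, add_zero]
      · exact ⟨∅, fun _ h => absurd h ha⟩
    · exact ⟨∅, fun h => absurd h hy⟩
  choose X hX using hX
  -- properties of the vectors
  have hP : ∀ y ∈ Fintype.piFinset Y, ∀ a ∈ Z, ∀ x ∈ X y a,
      (∀ (v : InfinitePlace K) (j : Fin s), ‖v.embedding (x j : K) / B - y v j‖ ≤ ρ) ∧
      (∀ j, Ideal.Quotient.mk I (x j) = a j) ∧ Prm x ∧ Bd ((b : ℝ) ^ 4) x ∧
      Bg ((b : ℝ) ^ 4) x ∧ ∀ i m, (W : ℤ) ∣ ω.repr (qf (ec ω c i) x) m ∧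
        |((ω.repr (qf (ec ω c i) x) m : ℤ) : ℝ)| ≤ δ * A * (b : ℝ) ^ 8 := by
    intro y hy a ha x hx
    obtain ⟨hx1, hx2, hx3⟩ := (hX y a hy ha).2 x hx
    rw [Fintype.mem_piFinset] at hy
    have hBc : (B : ℂ) ≠ 0 := by exact_mod_cast hB0.ne'
    have hz : ∀ (v : InfinitePlace K) (j : Fin s),
        ‖v.embedding (x j : K) / B - y v j‖ ≤ ρ := by
      intro v j
      have h1 : v.embedding (x j : K) / B - y v j = (v.embedding (x j : K) - B * y v j) / B := by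
        field_simp
      rw [h1, norm_div, Complex.norm_real, Real.norm_of_nonneg hB0.le, div_le_iff₀ hB0, ← hLd]
      exact hx3 j v
    have hall := fun v => (hY2 v (y v) (hy v)).2 (fun j => v.embedding (x j : K) / B) (hz v)
    have hnm : ∀ (v : InfinitePlace K) (j : Fin s), ‖v.embedding (x j : K) / B‖ = v (x j : K) / B := by
      intro v j
      rw [norm_div, Complex.norm_real, Real.norm_of_nonneg hB0.le, InfinitePlace.norm_embedding_eq]
    refine ⟨hz, hx2, hx1, ?_, ?_, ?_⟩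
    · intro j v
      have h1 := (hall v).1 j
      rw [hnm v j, div_le_one hB0, hB] at h1
      exact h1
    · intro v
      obtain ⟨j, hj⟩ := (hall v).2.1
      rw [hnm v j, lt_div_iff₀ hB0, hB] at hj
      exact ⟨j, by linarith⟩
    · intro i m
      constructor
      · have h1 : qf (ec ω c i) x ∈ I := by
          rw [← Ideal.Quotient.eq_zero_iff_mem, ← qf_map (Ideal.Quotient.mk I) (ec ω c i) x]
          have h2 : (fun j => Ideal.Quotient.mk I (x j)) = a := funext hx2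
          rw [h2]
          exact ((hZ a).1 ha).2 i
        rw [hI, Ideal.mem_span_singleton] at h1
        obtain ⟨u, hu⟩ := h1
        rw [hu, repr_mul]
        exact Dvd.intro _ rfl
      · have h1 : ∀ v : InfinitePlace K, v ((qf (ec ω c i) x : 𝓞 K) : K) ≤
            C₀ * A * (s * (s + 1)) * ρ * B ^ 2 := by
          intro v
          have h2 := (hall v).2.2 i
          have h3 : qf (ce v (ec ω c) i) (fun j => v.embedding (x j : K) / B) =
              v.embedding ((qf (ec ω c i) x : 𝓞 K) : K) / B ^ 2 := by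
            rw [qf_scale]
            have h4 := qf_map (v.embedding.comp (algebraMap (𝓞 K) K)) (ec ω c i) x
            have h5 : qf (ce v (ec ω c) i) (fun j => v.embedding (x j : K)) =
              v.embedding ((qf (ec ω c i) x : 𝓞 K) : K) := h4
            rw [h5]
          rw [h3, norm_div, norm_pow, Complex.norm_real, Real.norm_of_nonneg hB0.le,
            InfinitePlace.norm_embedding_eq, div_le_iff₀ (by positivity)] at h2
          exact h2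
        refine (hCa _ _ h1 m).trans (le_of_eq ?_)
        rw [hδρ, hσ, hB]
        ring
  -- the union
  obtain ⟨U, hU⟩ : ∃ U : Finset (Fin s → 𝓞 K),
    U = ((Fintype.piFinset Y) ×ˢ Z).biUnion fun q => X q.1 q.2 := ⟨_, rfl⟩
  have hUc : ((Fintype.piFinset Y).card : ℝ) * Z.card * (cS * (L / W) ^ (g * s)) ≤ U.card := by
    rw [hU, Finset.card_biUnion]
    · push_cast
      rw [← Nat.cast_mul, ← Finset.card_product, ← nsmul_eq_mul]
      refine Finset.card_nsmul_le_sum _ _ _ fun q hq => ?_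
      rw [Finset.mem_product] at hq
      exact (hX q.1 q.2 hq.1 hq.2).1
    · intro q hq q' hq' hne
      rw [Finset.mem_coe, Finset.mem_product] at hq hq'
      refine Finset.disjoint_left.mpr ?_
      intro x hx hx'
      have h1 := hP q.1 hq.1 q.2 hq.2 x hx
      have h2 := hP q'.1 hq'.1 q'.2 hq'.2 x hx'
      apply hne
      refine Prod.ext (funext fun v => ?_) (funext fun j => ?_)
      · by_contra hyy
        obtain ⟨j, hj⟩ := hY3 v (q.1 v) (Fintype.mem_piFinset.1 hq.1 v) (q'.1 v)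
          (Fintype.mem_piFinset.1 hq'.1 v) hyy
        have h3 := h1.1 v j
        have h4 := h2.1 v j
        have h5 : ‖q.1 v j - q'.1 v j‖ ≤ ‖v.embedding (x j : K) / B - q.1 v j‖ +
            ‖v.embedding (x j : K) / B - q'.1 v j‖ := by
          have : q.1 v j - q'.1 v j = -(v.embedding (x j : K) / B - q.1 v j) +
            (v.embedding (x j : K) / B - q'.1 v j) := by ring
          rw [this]
          exact (norm_add_le _ _).trans (by rw [norm_neg])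
        linarith
      · rw [← h1.2.1 j, ← h2.2.1 j]
  -- the bad vectors
  have hmv : ∀ x : Fin s → 𝓞 K, x ∈ vk K s ((b : ℝ) ^ 4) ↔ Bd ((b : ℝ) ^ 4) x := by
    intro x
    unfold vk
    rw [Set.Finite.mem_toFinset]
    rfl
  have hsub : U ⊆ ((H32.RK.GS K s b c').filter fun x => ∀ i m,
        (W : ℤ) ∣ ω.repr (qf (ec ω c i) x) m ∧
        |((ω.repr (qf (ec ω c i) x) m : ℤ) : ℝ)| ≤ δ * A * (b : ℝ) ^ 8) ∪
      (((vk K s ((b : ℝ) ^ 4)).filter fun x => ¬ H32.RK.Sup (b : ℝ) x) ∪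
        ((vk K s ((b : ℝ) ^ 4)).filter fun x => Bg ((b : ℝ) ^ 4) x ∧
          ¬ H32.RK.Iso (c' * (b : ℝ) ^ 3) x)) := by
    intro x hx
    rw [hU, Finset.mem_biUnion] at hx
    obtain ⟨q, hq, hx⟩ := hx
    rw [Finset.mem_product] at hq
    obtain ⟨_, _, h3, h4, h5, h6⟩ := hP q.1 hq.1 q.2 hq.2 x hx
    have hv : x ∈ vk K s ((b : ℝ) ^ 4) := (hmv x).2 h4
    by_cases hSx : H32.RK.Sup (b : ℝ) x
    · by_cases hIx : H32.RK.Iso (c' * (b : ℝ) ^ 3) x
      · refine Finset.mem_union_left _ (Finset.mem_filter.mpr ⟨Finset.mem_filter.mpr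
          ⟨hv, ⟨h4, h5, h3, hSx, hIx⟩⟩, h6⟩)
      · exact Finset.mem_union_right _ (Finset.mem_union_right _
          (Finset.mem_filter.mpr ⟨hv, h5, hIx⟩))
    · exact Finset.mem_union_right _ (Finset.mem_union_left _ (Finset.mem_filter.mpr ⟨hv, hSx⟩))
  have hcard := (Finset.card_le_card hsub).trans ((Finset.card_union_le _ _).trans
    (Nat.add_le_add_left (Finset.card_union_le _ _) _))
  have hb1r : (1 : ℝ) ≤ b := by exact_mod_cast hb1
  have hB1' : 1 ≤ (b : ℝ) ^ 4 := one_le_pow₀ hb1r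
  have hE1 := hBS ((b : ℝ) ^ 4) b hB1' hb1r
  have hE2 := hBI ((b : ℝ) ^ 4) (c' * (b : ℝ) ^ 3) hB1' (by positivity)
  have hbad2 := bad_le s g b c' C₁ C₂ hs hg1 hb1r hc' hC₁ hC₂
  rw [← hCbd] at hbad2
  rw [← hg] at hE1 hE2
  obtain ⟨G, hG⟩ : ∃ G : ℕ, G = ((H32.RK.GS K s b c').filter fun x => ∀ i m,
        (W : ℤ) ∣ ω.repr (qf (ec ω c i) x) m ∧
        |((ω.repr (qf (ec ω c i) x) m : ℤ) : ℝ)| ≤ δ * A * (b : ℝ) ^ 8).card := ⟨_, rfl⟩
  rw [← hG] at hcard ⊢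
  obtain ⟨E, hE⟩ : ∃ E : ℝ, E = C₁ * (b : ℝ) ^ (3 * g) * ((b : ℝ) ^ 4) ^ (g * (s - 1)) +
      C₂ * ((b : ℝ) ^ 4) ^ (2 * g) * ((c' * (b : ℝ) ^ 3) ^ g) ^ (s - 1) := ⟨_, rfl⟩
  rw [← hE] at hbad2
  have hUG : (U.card : ℝ) ≤ G + E := by
    have h1 := (Nat.cast_le (α := ℝ)).2 hcard
    rw [Nat.cast_add, Nat.cast_add] at h1
    rw [hE]
    refine h1.trans ?_
    exact add_le_add le_rfl (add_le_add hE1 hE2)
  -- the bad vectors are few
  have hEb : E ≤ η * δ ^ (2 * g) * (b : ℝ) ^ (4 * s * g) / (W : ℝ) ^ (2 * g) := by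
    have h1 : Cb * (W : ℝ) ^ (2 * g) ≤ b * (η * δ ^ (2 * g)) := by
      rw [div_le_iff₀ (by positivity)] at hb₂
      have h2 : (b₂ : ℝ) ≤ b := by exact_mod_cast hbb2
      exact hb₂.trans (mul_le_mul_of_nonneg_right h2 (by positivity))
    rw [le_div_iff₀ (by positivity)]
    have h3 : E * b * (W : ℝ) ^ (2 * g) ≤ Cb * (b : ℝ) ^ (4 * s * g) * (W : ℝ) ^ (2 * g) :=
      mul_le_mul_of_nonneg_right hbad2 (by positivity)
    have h4 : Cb * (b : ℝ) ^ (4 * s * g) * (W : ℝ) ^ (2 * g) ≤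
        b * (η * δ ^ (2 * g)) * (b : ℝ) ^ (4 * s * g) := by
      nlinarith [mul_le_mul_of_nonneg_right h1 (by positivity : (0:ℝ) ≤ (b : ℝ) ^ (4 * s * g))]
    have h5 : (b : ℝ) * (E * (W : ℝ) ^ (2 * g)) ≤
        b * (η * δ ^ (2 * g) * (b : ℝ) ^ (4 * s * g)) := by
      calc (b : ℝ) * (E * (W : ℝ) ^ (2 * g)) = E * b * (W : ℝ) ^ (2 * g) := by ring
        _ ≤ b * (η * δ ^ (2 * g)) * (b : ℝ) ^ (4 * s * g) := h3.trans h4
        _ = b * (η * δ ^ (2 * g) * (b : ℝ) ^ (4 * s * g)) := by ring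
    exact le_of_mul_le_mul_left h5 hb0
  -- the main term
  have hYc : (c₁ / ρ) ^ (g * (s - 2)) ≤ ((Fintype.piFinset Y).card : ℝ) := by
    rw [Fintype.card_piFinset]
    push_cast
    have h1 : (c₁ / ρ) ^ (g * (s - 2)) = ∏ v : InfinitePlace K, (c₁ / ρ) ^ (v.mult * (s - 2)) := by
      rw [Finset.prod_pow_eq_pow_sum, ← Finset.sum_mul, InfinitePlace.sum_mult_eq, hg]
    rw [h1]
    exact Finset.prod_le_prod (fun v _ => by positivity) fun v _ => hY1 v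
  have hmain : 2 * (η * δ ^ (2 * g) * (b : ℝ) ^ (4 * s * g) / (W : ℝ) ^ (2 * g)) ≤ U.card := by
    refine le_trans ?_ hUc
    have hL0 : 0 ≤ L := by
      rw [hLd]
      positivity
    have h1 : (c₁ / ρ) ^ (g * (s - 2)) * (η₁ * (W : ℝ) ^ (g * (s - 2))) *
        (cS * (L / W) ^ (g * s)) ≤
        ((Fintype.piFinset Y).card : ℝ) * Z.card * (cS * (L / W) ^ (g * s)) := by
      have h9 : 0 ≤ cS * (L / (W : ℝ)) ^ (g * s) :=
        mul_nonneg hcS.le (pow_nonneg (div_nonneg hL0 hWr.le) _)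
      refine mul_le_mul_of_nonneg_right ?_ h9
      exact mul_le_mul hYc hZc (mul_nonneg hη₁.le (pow_nonneg hWr.le _)) (Nat.cast_nonneg _)
    refine le_trans (le_of_eq ?_) h1
    obtain ⟨n, rfl⟩ : ∃ n, s = n + 2 := ⟨s - 2, by omega⟩
    rw [Nat.add_sub_cancel] at hη ⊢
    have e1 : g * (n + 2) = g * n + 2 * g := by ring
    have e2 : 4 * (n + 2) * g = 4 * (g * n + 2 * g) := by ring
    rw [e1, e2, hη, hLd, hδρ, hB, div_pow, div_pow, mul_pow, mul_pow, ← pow_mul,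
      pow_add ρ, pow_add (W : ℝ)]
    have hbp : (b : ℝ) ^ (4 * (g * n + 2 * g)) ≠ 0 := by positivity
    field_simp
  linarith

end Pool.Agent.H40.RK
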