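import Pool.Agent.H32.RK.TargetsA

set_option autoImplicit false

open Finset NumberField Pool.Agent.H32.RQ Pool.Agent.H32.RK

namespace Pool.Agent.H40.RK

open Classical in
theorem pf_SPL (K : Type) [Field K] [NumberField K] : T_SPL K := by
  intro W w₀ hW
  have hI : Ideal.span {(W : 𝓞 K)} ≠ ⊥ := by
    rw [Ne, Ideal.span_singleton_eq_bot]
    exact_mod_cast (by omega : W ≠ 0)
  set I : Ideal (𝓞 K) := Ideal.span {(W : 𝓞 K)} with hId
  set m : Multiset (Ideal (𝓞 K)) := UniqueFactorizationMonoid.normalizedFactors I with hm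
  have hprod : m.prod = I := Ideal.prod_normalizedFactors_eq_self hI
  have hpr : ∀ q ∈ m, Prime q := fun q hq => UniqueFactorizationMonoid.prime_of_normalized_factor q hq
  have hmax : ∀ q ∈ m, ∀ 𝔭 : Ideal (𝓞 K), 𝔭.IsPrime → q ≤ 𝔭 → q = 𝔭 := by
    intro q hq 𝔭 h𝔭 hle
    have h1 := hpr q hq
    have h2 : q.IsPrime := Ideal.isPrime_of_prime h1
    have h3 : q.IsMaximal := h2.isMaximal h1.ne_zero
    exact h3.eq_of_le h𝔭.ne_top hle
  set P : Ideal (𝓞 K) → Prop := fun q => Ideal.absNorm q ≤ w₀ with hP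
  have hk0 : ∀ 𝔭 : Ideal (𝓞 K), 𝔭.IsPrime → (m.filter P).prod ≤ 𝔭 → Ideal.absNorm 𝔭 ≤ w₀ := by
    intro 𝔭 h𝔭 hle
    obtain ⟨q, hq, hqle⟩ := (Ideal.IsPrime.multiset_prod_le h𝔭).1 hle
    rw [Multiset.mem_filter] at hq
    rw [← hmax q hq.1 𝔭 h𝔭 hqle]
    exact hq.2
  have hk1 : ∀ 𝔭 : Ideal (𝓞 K), 𝔭.IsPrime → (m.filter (fun q => ¬ P q)).prod ≤ 𝔭 →
      w₀ < Ideal.absNorm 𝔭 := by
    intro 𝔭 h𝔭 hle
    obtain ⟨q, hq, hqle⟩ := (Ideal.IsPrime.multiset_prod_le h𝔭).1 hle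
    rw [Multiset.mem_filter] at hq
    rw [← hmax q hq.1 𝔭 h𝔭 hqle]
    exact not_le.1 hq.2
  have hmul : I = (m.filter P).prod * (m.filter (fun q => ¬ P q)).prod := by
    rw [← Multiset.prod_add, Multiset.filter_add_not, hprod]
  refine ⟨(m.filter P).prod, (m.filter (fun q => ¬ P q)).prod, hmul, ?_, hk0, hk1, ?_⟩
  · by_contra hne
    obtain ⟨M, hM, hle⟩ := Ideal.exists_le_maximal _ hne
    have h0 := hk0 M hM.isPrime (le_sup_left.trans hle)
    have h1 := hk1 M hM.isPrime (le_sup_right.trans hle)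
    omega
  · intro 𝔭 k h𝔭 h𝔭0 hn hWk
    have h𝔭m : 𝔭.IsMaximal := h𝔭.isMaximal h𝔭0
    have hle : I ≤ 𝔭 ^ k := by
      rw [hId, Ideal.span_singleton_le_iff_mem]
      exact hWk
    have hdvd : 𝔭 ^ k ∣ (m.filter P).prod * (m.filter (fun q => ¬ P q)).prod := by
      rw [← hmul]
      exact Ideal.dvd_iff_le.2 hle
    have hcop : IsCoprime (𝔭 ^ k) (m.filter (fun q => ¬ P q)).prod := by
      rw [Ideal.isCoprime_iff_sup_eq]
      by_contra hne
      obtain ⟨M, hM, hle⟩ := Ideal.exists_le_maximal _ hne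
      have h0 : 𝔭 ^ k ≤ M := le_sup_left.trans hle
      have h1 := hk1 M hM.isPrime (le_sup_right.trans hle)
      have h2 : 𝔭 ≤ M := hM.isPrime.le_of_pow_le h0
      have h3 : 𝔭 = M := h𝔭m.eq_of_le hM.ne_top h2
      rw [← h3] at h1
      omega
    exact Ideal.dvd_iff_le.1 (hcop.dvd_of_dvd_mul_right hdvd)

end Pool.Agent.H40.RK
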